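import Mathlib

/-!
The flattening cellular automaton has an attractor outside the bunches of the two constant
configurations. The attractor is a column of vertical segments of ones of growing length, separated
by empty rows; at every time its trajectory has infinitely many ones and infinitely many zeroes.
-/

set_option autoImplicit false

namespace Pool.Agent.Results.MP_851083_pr.NonconstantAttractor

/-- A configuration: a map from the square lattice to the two symbols; `true` is `1`. -/
abbrev Config : Type := ℤ × ℤ → Bool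

/-- The local function `F(a, b, c, d) = max (min a b) (min c d)`. -/
def F (a b c d : Bool) : Bool := max (min a b) (min c d)

/-- One step of the flattening automaton: the new symbol at `(i, j)` is
`F (x (i, j)) (x (i, j - 1)) (x (i - 1, j)) (x (i - 1, j - 1))`. -/
def step (x : Config) : Config := fun s =>
  F (x (s.1, s.2)) (x (s.1, s.2 - 1)) (x (s.1 - 1, s.2)) (x (s.1 - 1, s.2 - 1))

/-- The trajectory of the initial configuration `y`; `TR y n` is the configuration at the time
`n - 1`, so that `TR y 0 = y` is the configuration at time `-1`. -/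
def TR (y : Config) (n : ℕ) : Config := step^[n] y

/-- The initial configuration `y` is an attractor: for every finite perturbation `y'` of `y`, the
trajectory of `y'` differs from that of `y` at only finitely many space-time points. -/
def Attractor (y : Config) : Prop :=
  ∀ y' : Config, {s | y' s ≠ y s}.Finite → {p : (ℤ × ℤ) × ℕ | TR y' p.2 p.1 ≠ TR y p.2 p.1}.Finite

theorem TR_succ (y : Config) (n : ℕ) (i j : ℤ) :
    TR y (n + 1) (i, j) = F (TR y n (i, j)) (TR y n (i, j - 1)) (TR y n (i - 1, j))
      (TR y n (i - 1, j - 1)) := by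
  unfold TR
  rw [Function.iterate_succ_apply']
  rfl

theorem F_true : ∀ a b c d : Bool, F a b c d = true → (a = true ∧ b = true) ∨ (c = true ∧ d = true) := by
  decide

theorem F_true' : ∀ c d : Bool, F true true c d = true := by
  decide

/-- a row of zeroes stays a row of zeroes -/
theorem zero_row (y : Config) (B : ℤ) (h : ∀ i, y (i, B) = false) (n : ℕ) (i : ℤ) :
    TR y n (i, B) = false := by
  induction n generalizing i with
  | zero => exact h i
  | succ n ih =>
    rw [TR_succ, ← Bool.not_eq_true]
    intro hc
    rcases F_true _ _ _ _ hc with ⟨h1, -⟩ | ⟨h1, -⟩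
    · rw [ih i] at h1; exact absurd h1 (by simp)
    · rw [ih (i - 1)] at h1; exact absurd h1 (by simp)

/-- the ones above a zero row are erased linearly fast -/
theorem bound (y : Config) (A B C M : ℤ) (hA : ∀ i, y (i, A) = false)
    (h0 : ∀ i j, A ≤ j → j ≤ B → y (i, j) = true → C ≤ i ∧ i ≤ M) (n : ℕ) :
    ∀ i j, A ≤ j → j ≤ B → TR y n (i, j) = true → A + n < j ∧ C ≤ i ∧ i ≤ M + n := by
  induction n with
  | zero =>
    intro i j h1 h2 h3
    have h4 := h0 i j h1 h2 h3
    refine ⟨?_, h4.1, by simpa using h4.2⟩
    rcases lt_or_eq_of_le h1 with h | h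
    · simpa using h
    · subst h
      have h5 : y (i, A) = true := h3
      rw [hA i] at h5
      exact absurd h5 (by simp)
  | succ n ih =>
    intro i j h1 h2 h3
    have hlt : A < j := by
      rcases lt_or_eq_of_le h1 with h | h
      · exact h
      · subst h
        rw [zero_row y A hA] at h3
        exact absurd h3 (by simp)
    rw [TR_succ] at h3
    push_cast
    rcases F_true _ _ _ _ h3 with ⟨g1, g2⟩ | ⟨g1, g2⟩
    · have k1 := ih i j h1 h2 g1
      have k2 := ih i (j - 1) (by omega) (by omega) g2
      omega
    · have k1 := ih (i - 1) j h1 h2 g1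
      have k2 := ih (i - 1) (j - 1) (by omega) (by omega) g2
      omega

/-- above a common zero row two trajectories agree if they agree initially -/
theorem agree_above (y y' : Config) (B : ℤ) (hB : ∀ i, y (i, B) = false)
    (hB' : ∀ i, y' (i, B) = false) (h : ∀ i j, B ≤ j → y' (i, j) = y (i, j)) (n : ℕ) :
    ∀ i j, B ≤ j → TR y' n (i, j) = TR y n (i, j) := by
  induction n with
  | zero => exact h
  | succ n ih =>
    intro i j hj
    rcases lt_or_eq_of_le hj with h1 | h1
    · rw [TR_succ, TR_succ, ih i j hj, ih i (j - 1) (by omega), ih (i - 1) j hj,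
        ih (i - 1) (j - 1) (by omega)]
    · subst h1
      rw [zero_row y B hB, zero_row y' B hB']

/-- below every row two trajectories agree if they agree initially -/
theorem agree_below (y y' : Config) (A : ℤ) (h : ∀ i j, j ≤ A → y' (i, j) = y (i, j)) (n : ℕ) :
    ∀ i j, j ≤ A → TR y' n (i, j) = TR y n (i, j) := by
  induction n with
  | zero => exact h
  | succ n ih =>
    intro i j hj
    rw [TR_succ, TR_succ, ih i j hj, ih i (j - 1) (by omega), ih (i - 1) j hj,
      ih (i - 1) (j - 1) (by omega)]

/-- The attractor: for every `k` the vertical segment of ones from `(0, (k + 1) ^ 2)` to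
`(0, (k + 1) ^ 2 + k)`. -/
noncomputable def islands : Config := by
  classical
  exact fun s => decide (s.1 = 0 ∧ ∃ k : ℕ, ((k : ℤ) + 1) ^ 2 ≤ s.2 ∧
    s.2 ≤ ((k : ℤ) + 1) ^ 2 + k)

theorem islands_iff (i j : ℤ) : islands (i, j) = true ↔
    i = 0 ∧ ∃ k : ℕ, ((k : ℤ) + 1) ^ 2 ≤ j ∧ j ≤ ((k : ℤ) + 1) ^ 2 + k := by
  simp [islands]

/-- the rows before the islands are empty -/
theorem islands_gap (m : ℕ) (i : ℤ) : islands (i, ((m : ℤ) + 1) ^ 2 - 1) = false := by
  rw [← Bool.not_eq_true, islands_iff]
  rintro ⟨-, k, h1, h3⟩
  have hk : (0 : ℤ) ≤ k := Int.natCast_nonneg k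
  have hm : (0 : ℤ) ≤ m := Int.natCast_nonneg m
  have h4 : (k : ℤ) + 1 ≤ m := by
    by_contra hc
    push Not at hc
    nlinarith
  nlinarith

/-- the lower half plane is empty -/
theorem islands_low (i j : ℤ) (hj : j ≤ 0) : islands (i, j) = false := by
  rw [← Bool.not_eq_true, islands_iff]
  rintro ⟨-, k, h1, -⟩
  have hk : (0 : ℤ) ≤ k := Int.natCast_nonneg k
  nlinarith

/-- every island survives for a time which is at least its size -/
theorem islands_alive (k n : ℕ) (j : ℤ) (h1 : ((k : ℤ) + 1) ^ 2 + n ≤ j)
    (h3 : j ≤ ((k : ℤ) + 1) ^ 2 + k) : TR islands n (0, j) = true := by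
  induction n generalizing j with
  | zero =>
    exact (islands_iff 0 j).2 ⟨rfl, k, by simpa using h1, h3⟩
  | succ n ih =>
    push_cast at h1
    rw [TR_succ, ih j (by omega) h3, ih (j - 1) (by omega) (by omega)]
    exact F_true' _ _

theorem islands_ones (n : ℕ) : {s | TR islands n s = true}.Infinite := by
  apply Set.infinite_of_injective_forall_mem
    (f := fun k : ℕ => ((0 : ℤ), (((k + n : ℕ) : ℤ) + 1) ^ 2 + n))
  · intro a b hab
    simp only [Prod.mk.injEq, true_and] at hab
    push_cast at hab
    have ha : (0 : ℤ) ≤ a := Int.natCast_nonneg a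
    have hb : (0 : ℤ) ≤ b := Int.natCast_nonneg b
    have hn : (0 : ℤ) ≤ n := Int.natCast_nonneg n
    have h1 : ((a : ℤ) - b) * ((a : ℤ) + n + 1 + (b + n + 1)) = 0 := by ring_nf; ring_nf at hab; linarith
    have h2 : (a : ℤ) + n + 1 + (b + n + 1) ≠ 0 := by positivity
    have h3 : (a : ℤ) - b = 0 := by
      rcases mul_eq_zero.1 h1 with h | h
      · exact h
      · exact absurd h h2
    have h4 : (a : ℤ) = b := by linarith
    exact_mod_cast h4
  · intro k
    refine islands_alive (k + n) n _ le_rfl ?_
    push_cast
    have hk : (0 : ℤ) ≤ k := Int.natCast_nonneg k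
    linarith

theorem islands_zeroes (n : ℕ) : {s | TR islands n s = false}.Infinite := by
  apply Set.infinite_of_injective_forall_mem (f := fun k : ℕ => ((k : ℤ), (0 : ℤ)))
  · intro a b hab
    simpa using hab
  · intro k
    exact zero_row islands 0 (fun i => islands_low i 0 le_rfl) n k

theorem bool_or : ∀ a b : Bool, a ≠ b → a = true ∨ b = true := by decide

theorem islands_attractor : Attractor islands := by
  intro y' hfin
  -- the perturbed sites lie in a box
  obtain ⟨R, hR0, hR⟩ : ∃ R : ℤ, 0 ≤ R ∧ ∀ i j, y' (i, j) ≠ islands (i, j) →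
      -R < j ∧ j < R ∧ -R ≤ i ∧ i ≤ R := by
    have h1 : ((fun s : ℤ × ℤ => |s.1| + |s.2| + 1) '' {s | y' s ≠ islands s}).Finite := hfin.image _
    obtain ⟨R, hR⟩ := h1.bddAbove
    refine ⟨max R 0, le_max_right _ _, ?_⟩
    intro i j hij
    have h2 : |i| + |j| + 1 ≤ R := hR ⟨(i, j), hij, rfl⟩
    have h3 := abs_nonneg i
    have h4 := abs_nonneg j
    have h5 := le_max_left R 0
    refine ⟨?_, ?_, ?_, ?_⟩
    · have := neg_abs_le j; omega
    · have := le_abs_self j; omega
    · have := neg_abs_le i; omega
    · have := le_abs_self i; omega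
  set A : ℤ := -R with hA
  obtain ⟨B, hB1, hB2⟩ : ∃ B : ℤ, R ≤ B ∧ ∀ i, islands (i, B) = false := by
    refine ⟨((R.toNat : ℤ) + 1) ^ 2 - 1, ?_, fun i => islands_gap _ i⟩
    rw [Int.toNat_of_nonneg hR0]
    nlinarith
  have heqL : ∀ i j, j ≤ A → y' (i, j) = islands (i, j) := by
    intro i j hi
    by_contra hc
    have := (hR i j hc).1
    omega
  have heqR : ∀ i j, B ≤ j → y' (i, j) = islands (i, j) := by
    intro i j hi
    by_contra hc
    have := (hR i j hc).2.1
    omega
  have hAz : ∀ i, islands (i, A) = false := fun i => islands_low i A (by omega)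
  have hAz' : ∀ i, y' (i, A) = false := fun i => by rw [heqL i A le_rfl, hAz i]
  have hBz' : ∀ i, y' (i, B) = false := fun i => by rw [heqR i B le_rfl, hB2 i]
  have h0 : ∀ i j, A ≤ j → j ≤ B → islands (i, j) = true → A ≤ i ∧ i ≤ R := by
    intro i j h1 h2 h3
    obtain ⟨g1, -⟩ := (islands_iff i j).1 h3
    omega
  have h0' : ∀ i j, A ≤ j → j ≤ B → y' (i, j) = true → A ≤ i ∧ i ≤ R := by
    intro i j h1 h2 h3
    by_cases hc : y' (i, j) = islands (i, j)
    · exact h0 i j h1 h2 (hc ▸ h3)
    · have := hR i j hc
      omega
  have hb := bound islands A B A R hAz h0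
  have hb' := bound y' A B A R hAz' h0'
  -- the difference set lies in a box
  refine Set.Finite.subset (s := ((Set.Icc A (R + (B - A))) ×ˢ (Set.Icc A B)) ×ˢ
    (Set.Iic ((B - A).toNat))) ?_ ?_
  · exact ((Set.finite_Icc _ _).prod (Set.finite_Icc _ _)).prod (Set.finite_Iic _)
  · rintro ⟨⟨i, j⟩, n⟩ hne
    simp only [Set.mem_ofPred_eq] at hne
    have hi1 : A < j := by
      by_contra hc
      exact hne (agree_below islands y' A heqL n i j (by omega))
    have hi2 : j < B := by
      by_contra hc
      exact hne (agree_above islands y' B hB2 hBz' heqR n i j (by omega))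
    have hor : TR y' n (i, j) = true ∨ TR islands n (i, j) = true := bool_or _ _ hne
    have hfinal : A + n < j ∧ A ≤ i ∧ i ≤ R + n := by
      rcases hor with h | h
      · exact hb' n i j hi1.le hi2.le h
      · exact hb n i j hi1.le hi2.le h
    simp only [Set.mem_prod, Set.mem_Icc, Set.mem_Iic]
    refine ⟨⟨⟨by omega, by omega⟩, ⟨by omega, by omega⟩⟩, ?_⟩
    omega

/-- **Theorem.** The flattening automaton has an attractor outside the bunches of all zeroes and of
all ones: there is an attractor `y` with infinitely many ones and infinitely many zeroes. Moreover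
it can be chosen such that at every time its trajectory has infinitely many ones and infinitely many
zeroes, so that its trajectory is never a finite perturbation of a constant configuration. -/
theorem result : ∃ y : Config, Attractor y ∧
    {s | y s = true}.Infinite ∧ {s | y s = false}.Infinite ∧
    ∀ n : ℕ, {s | TR y n s = true}.Infinite ∧ {s | TR y n s = false}.Infinite :=
  ⟨islands, islands_attractor, islands_ones 0, islands_zeroes 0,
    fun n => ⟨islands_ones n, islands_zeroes n⟩⟩

end Pool.Agent.Results.MP_851083_pr.NonconstantAttractor
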